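import Mathlib

/-!
# Discrete cocompact subgroups
-/

set_option autoImplicit false
set_option linter.unusedSectionVars false

namespace Pool.Agent.Lib.MP_119f04_al

open Filter Topology Set
open scoped Pointwise

variable {G : Type} [Group G] [TopologicalSpace G] [IsTopologicalGroup G] [T2Space G]

theorem t2_quot (Γ : Subgroup G) (hΓ : IsClosed (Γ : Set G)) : T2Space (G ⧸ Γ) := by
  rw [t2Space_iff_of_isOpenQuotientMap QuotientGroup.isOpenQuotientMap_mk]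
  have h1 : {q : G × G | (QuotientGroup.mk q.1 : G ⧸ Γ) = QuotientGroup.mk q.2} =
      (fun q : G × G => q.1⁻¹ * q.2) ⁻¹' (Γ : Set G) := by
    ext q
    exact QuotientGroup.eq
  rw [h1]
  exact hΓ.preimage (by fun_prop)

/-- A compact set that meets all cosets. -/
theorem exists_compact [LocallyCompactSpace G] (Γ : Subgroup G) [CompactSpace (G ⧸ Γ)] :
    ∃ D : Set G, IsCompact D ∧ ∀ g : G, ∃ d ∈ D, ∃ γ ∈ Γ, g = d * γ := by
  choose K hK hK' using fun g : G => exists_compact_mem_nhds g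
  have h1 : ∀ g : G, (QuotientGroup.mk '' K g : Set (G ⧸ Γ)) ∈ 𝓝 (QuotientGroup.mk g : G ⧸ Γ) :=
    fun g => QuotientGroup.isOpenQuotientMap_mk.isOpenMap.image_mem_nhds (hK' g)
  choose r hr using fun x : G ⧸ Γ => QuotientGroup.mk_surjective x
  obtain ⟨t, ht⟩ := isCompact_univ.elim_nhds_subcover'
    (fun x (_ : x ∈ univ) => (QuotientGroup.mk '' K (r x) : Set (G ⧸ Γ)))
    (fun x _ => by
      have h2 := h1 (r x)
      rw [hr x] at h2
      exact h2)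
  refine ⟨⋃ x ∈ t, K (r x.1), t.isCompact_biUnion fun x _ => hK _, fun g => ?_⟩
  have h3 := ht (mem_univ (QuotientGroup.mk g : G ⧸ Γ))
  simp only [mem_iUnion] at h3
  obtain ⟨x, hx, d, hd, hdg⟩ := h3
  refine ⟨d, mem_biUnion hx hd, d⁻¹ * g, QuotientGroup.eq.1 hdg, ?_⟩
  rw [mul_inv_cancel_left]

theorem finite_inter (Γ : Subgroup G) [DiscreteTopology Γ] {K : Set G} (hK : IsCompact K) :
    ((Γ : Set G) ∩ K).Finite := by
  have h1 : IsClosed (Γ : Set G) := Subgroup.isClosed_of_discrete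
  have h2 : IsCompact ((Γ : Set G) ∩ K) := hK.inter_left h1
  have h3 : DiscreteTopology ((Γ : Set G) ∩ K : Set G) :=
    DiscreteTopology.of_subset (s := (Γ : Set G)) inferInstance inter_subset_left
  exact h2.finite ⟨h3⟩

theorem commens [LocallyCompactSpace G] (Γ₁ Γ₂ : Subgroup G) [CompactSpace (G ⧸ Γ₁)]
    [DiscreteTopology Γ₂] (h : G)
    (hfin : (MulAction.orbit Γ₁ (QuotientGroup.mk h : G ⧸ Γ₂)).Finite) :
    Subgroup.Commensurable Γ₁ (Γ₂.map (MulAut.conj h).toMonoidHom) := by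
  obtain ⟨Γ', hΓ'⟩ : ∃ Γ' : Subgroup G, Γ' = Γ₂.map (MulAut.conj h).toMonoidHom := ⟨_, rfl⟩
  have hmem : ∀ g, g ∈ Γ' ↔ h⁻¹ * g * h ∈ Γ₂ := by
    intro g
    rw [hΓ', Subgroup.mem_map]
    constructor
    · rintro ⟨x, hx, rfl⟩
      show h⁻¹ * (h * x * h⁻¹) * h ∈ Γ₂
      rw [show h⁻¹ * (h * x * h⁻¹) * h = x by group]
      exact hx
    · intro hg
      refine ⟨_, hg, ?_⟩
      show h * (h⁻¹ * g * h) * h⁻¹ = g
      group
  rw [← hΓ']
  -- the stabilizer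
  have hstab : MulAction.stabilizer Γ₁ (QuotientGroup.mk h : G ⧸ Γ₂) = Γ'.subgroupOf Γ₁ := by
    ext γ
    rw [MulAction.mem_stabilizer_iff, Subgroup.mem_subgroupOf, hmem]
    have h1 : γ • (QuotientGroup.mk h : G ⧸ Γ₂) = QuotientGroup.mk ((γ : G) * h) := rfl
    rw [h1, eq_comm, QuotientGroup.eq, mul_assoc]
  have hidx : Γ'.relIndex Γ₁ ≠ 0 := by
    show (Γ'.subgroupOf Γ₁).index ≠ 0
    rw [← hstab, MulAction.index_stabilizer]
    exact (Set.ncard_pos hfin).2 ⟨_, MulAction.mem_orbit_self _⟩ |>.ne'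
  refine ⟨?_, hidx⟩
  -- the other index
  show (Γ₁.subgroupOf Γ').index ≠ 0
  obtain ⟨D, hD, hD'⟩ := exists_compact Γ₁
  have hfi' : (Γ'.subgroupOf Γ₁).FiniteIndex := Subgroup.finiteIndex_iff.2 hidx
  have hfi : Finite (Γ₁ ⧸ Γ'.subgroupOf Γ₁) := Subgroup.finite_quotient_of_finiteIndex
  choose ρ hρ using fun x : Γ₁ ⧸ Γ'.subgroupOf Γ₁ => QuotientGroup.mk_surjective x
  let K : Set G := ⋃ x, (fun d => h⁻¹ * (d * (ρ x : G)) * h) '' D
  have hK : IsCompact K := isCompact_iUnion fun x => hD.image (by fun_prop)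
  have hfin' := finite_inter Γ₂ hK
  have hfs : Finite ((Γ₂ : Set G) ∩ K : Set G) := hfin'
  have hsurj : Function.Surjective (fun y : ((Γ₂ : Set G) ∩ K : Set G) =>
      (QuotientGroup.mk (⟨h * y.1 * h⁻¹, (hmem _).2 (by
        rw [show h⁻¹ * (h * y.1 * h⁻¹) * h = y.1 by group]
        exact y.2.1)⟩ : Γ') : Γ' ⧸ Γ₁.subgroupOf Γ')) := by
    intro q
    obtain ⟨⟨g, hg⟩, rfl⟩ := QuotientGroup.mk_surjective q
    obtain ⟨d, hd, γ, hγ, hgd⟩ := hD' g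
    have h1 := hρ (QuotientGroup.mk ⟨γ, hγ⟩)
    have h2 := QuotientGroup.eq.1 h1
    rw [Subgroup.mem_subgroupOf] at h2
    have h3 : ((ρ (QuotientGroup.mk ⟨γ, hγ⟩) : Γ₁) : G)⁻¹ * γ ∈ Γ' := h2
    obtain ⟨u, hu⟩ : ∃ u : G, u = ((ρ (QuotientGroup.mk ⟨γ, hγ⟩) : Γ₁) : G) := ⟨_, rfl⟩
    rw [← hu] at h3
    have hu1 : u ∈ Γ₁ := by rw [hu]; exact (ρ _).2
    have h4 : d * u ∈ Γ' := by
      have h5 : d * u = g * (u⁻¹ * γ)⁻¹ := by rw [hgd]; group
      rw [h5]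
      exact Γ'.mul_mem hg (Γ'.inv_mem h3)
    refine ⟨⟨h⁻¹ * (d * u) * h, (hmem _).1 h4, mem_iUnion.2 ⟨_, d, hd, by rw [hu]⟩⟩, ?_⟩
    refine QuotientGroup.eq.2 ?_
    rw [Subgroup.mem_subgroupOf]
    show (h * (h⁻¹ * (d * u) * h) * h⁻¹)⁻¹ * g ∈ Γ₁
    have h6 : (h * (h⁻¹ * (d * u) * h) * h⁻¹)⁻¹ * g = u⁻¹ * γ := by rw [hgd]; group
    rw [h6]
    exact Γ₁.mul_mem (Γ₁.inv_mem hu1) hγ
  have hfq : Finite (Γ' ⧸ Γ₁.subgroupOf Γ') := Finite.of_surjective _ hsurj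
  exact Subgroup.FiniteIndex.index_ne_zero (H := Γ₁.subgroupOf Γ')
    (self := Subgroup.finiteIndex_of_finite_quotient)

end Pool.Agent.Lib.MP_119f04_al
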