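import Mathlib

/-!
# Invariant functionals on the continuous functions on a compact space
-/

set_option autoImplicit false

namespace Pool.Agent.Lib.MP_119f04_al

open Filter Topology Set Bornology

variable {X : Type} [TopologicalSpace X] [CompactSpace X]

/-- The positive normalised functionals. -/
def Pos (X : Type) [TopologicalSpace X] [CompactSpace X] : Set (WeakDual ℝ C(X, ℝ)) :=
  {Λ | (∀ f : C(X, ℝ), 0 ≤ f → 0 ≤ Λ f) ∧ Λ 1 = 1}

/-- The positive normalised functionals invariant under `P`. -/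
def Inv (P : C(X, ℝ) → C(X, ℝ)) : Set (WeakDual ℝ C(X, ℝ)) :=
  {Λ | Λ ∈ Pos X ∧ ∀ f, Λ (P f) = Λ f}

theorem pos_bound {Λ : WeakDual ℝ C(X, ℝ)} (h : Λ ∈ Pos X) (f : C(X, ℝ)) : |Λ f| ≤ ‖f‖ := by
  have h1 : 0 ≤ Λ (‖f‖ • (1 : C(X, ℝ)) - f) := h.1 _ fun x => by
    have := f.norm_coe_le_norm x
    have h2 := (abs_le.1 (Real.norm_eq_abs (f x) ▸ this)).2
    show (0 : ℝ) ≤ ‖f‖ • (1 : ℝ) - f x
    rw [smul_eq_mul, mul_one]
    linarith
  have h2 : 0 ≤ Λ (‖f‖ • (1 : C(X, ℝ)) + f) := h.1 _ fun x => by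
    have := f.norm_coe_le_norm x
    have h2 := (abs_le.1 (Real.norm_eq_abs (f x) ▸ this)).1
    show (0 : ℝ) ≤ ‖f‖ • (1 : ℝ) + f x
    rw [smul_eq_mul, mul_one]
    linarith
  rw [map_sub, map_smul, h.2, smul_eq_mul, mul_one] at h1
  rw [map_add, map_smul, h.2, smul_eq_mul, mul_one] at h2
  rw [abs_le]
  constructor <;> linarith

theorem isClosed_pos : IsClosed (Pos X) := by
  have h1 : Pos X = (⋂ f : C(X, ℝ), ⋂ _ : 0 ≤ f, {Λ : WeakDual ℝ C(X, ℝ) | 0 ≤ Λ f}) ∩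
      {Λ | Λ 1 = 1} := by
    ext Λ
    simp only [Pos, mem_ofPred_eq, mem_inter_iff, mem_iInter]
  rw [h1]
  refine IsClosed.inter ?_ ?_
  · refine isClosed_iInter fun f => isClosed_iInter fun _ => ?_
    exact isClosed_le continuous_const (WeakDual.eval_continuous f)
  · exact isClosed_eq (WeakDual.eval_continuous _) continuous_const

theorem isClosed_inv (P : C(X, ℝ) → C(X, ℝ)) : IsClosed (Inv P) := by
  have h1 : Inv P = Pos X ∩ ⋂ f, {Λ : WeakDual ℝ C(X, ℝ) | Λ (P f) = Λ f} := by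
    ext Λ
    simp only [Inv, mem_ofPred_eq, mem_inter_iff, mem_iInter]
  rw [h1]
  exact isClosed_pos.inter (isClosed_iInter fun f => isClosed_eq (WeakDual.eval_continuous _)
    (WeakDual.eval_continuous _))

theorem isCompact_pos : IsCompact (Pos X) := by
  refine (WeakDual.isCompact_closedBall (𝕜 := ℝ) (0 : StrongDual ℝ C(X, ℝ)) 1).of_isClosed_subset
    isClosed_pos fun Λ hΛ => ?_
  rw [mem_preimage, mem_closedBall_zero_iff]
  refine ContinuousLinearMap.opNorm_le_bound _ zero_le_one fun f => ?_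
  rw [one_mul, Real.norm_eq_abs]
  exact pos_bound hΛ f

theorem isCompact_inv (P : C(X, ℝ) → C(X, ℝ)) : IsCompact (Inv P) :=
  isCompact_pos.of_isClosed_subset (isClosed_inv P) fun _ h => h.1

theorem convex_inv (P : C(X, ℝ) → C(X, ℝ)) : Convex ℝ (Inv P) := by
  intro Λ h Λ' h' a b ha hb hab
  refine ⟨⟨fun f hf => ?_, ?_⟩, fun f => ?_⟩
  · show 0 ≤ a • Λ f + b • Λ' f
    exact add_nonneg (mul_nonneg ha (h.1.1 f hf)) (mul_nonneg hb (h'.1.1 f hf))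
  · show a • Λ 1 + b • Λ' 1 = 1
    rw [h.1.2, h'.1.2, smul_eq_mul, smul_eq_mul, mul_one, mul_one]
    exact hab
  · show a • Λ (P f) + b • Λ' (P f) = a • Λ f + b • Λ' f
    rw [h.2, h'.2]

/-- The functional `f ↦ (n + 1)⁻¹ ∑_{k ≤ n} P^k f (x)`. -/
noncomputable def ces (P : C(X, ℝ) →L[ℝ] C(X, ℝ)) (n : ℕ) (x : X) : WeakDual ℝ C(X, ℝ) :=
  StrongDual.toWeakDual (((n + 1 : ℝ)⁻¹) •
    (ContinuousMap.evalCLM ℝ x : C(X, ℝ) →L[ℝ] ℝ).comp (∑ k ∈ Finset.range (n + 1), P ^ k))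

theorem ces_apply (P : C(X, ℝ) →L[ℝ] C(X, ℝ)) (n : ℕ) (x : X) (f : C(X, ℝ)) :
    ces P n x f = (n + 1 : ℝ)⁻¹ * ∑ k ∈ Finset.range (n + 1), (P ^ k) f x := by
  show (n + 1 : ℝ)⁻¹ • ((∑ k ∈ Finset.range (n + 1), P ^ k) f) x = _
  rw [sum_apply, ContinuousMap.sum_apply, smul_eq_mul]

theorem pow_pos' {P : C(X, ℝ) →L[ℝ] C(X, ℝ)} (hP : ∀ f : C(X, ℝ), 0 ≤ f → 0 ≤ P f) (k : ℕ)
    {f : C(X, ℝ)} (hf : 0 ≤ f) : 0 ≤ (P ^ k) f := by
  induction k generalizing f with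
  | zero => exact hf
  | succ k ih =>
    rw [pow_succ]
    exact ih (hP f hf)

theorem pow_one' {P : C(X, ℝ) →L[ℝ] C(X, ℝ)} (hP : P 1 = 1) (k : ℕ) : (P ^ k) 1 = 1 := by
  induction k with
  | zero => rfl
  | succ k ih =>
    rw [pow_succ, mul_apply_eq_comp, hP, ih]

theorem ces_pos {P : C(X, ℝ) →L[ℝ] C(X, ℝ)} (hP : ∀ f : C(X, ℝ), 0 ≤ f → 0 ≤ P f)
    (hP1 : P 1 = 1) (n : ℕ) (x : X) : ces P n x ∈ Pos X := by
  have hn : (0 : ℝ) < n + 1 := by positivity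
  refine ⟨fun f hf => ?_, ?_⟩
  · rw [ces_apply]
    exact mul_nonneg (inv_nonneg.2 hn.le) (Finset.sum_nonneg fun k _ => pow_pos' hP k hf x)
  · rw [ces_apply]
    have h1 : ∀ k ∈ Finset.range (n + 1), (P ^ k) (1 : C(X, ℝ)) x = 1 := fun k _ => by
      rw [pow_one' hP1]
      rfl
    rw [Finset.sum_congr rfl h1, Finset.sum_const, Finset.card_range, nsmul_eq_mul, mul_one]
    push_cast
    exact inv_mul_cancel₀ hn.ne'

theorem pow_bound {P : C(X, ℝ) →L[ℝ] C(X, ℝ)} (hP : ∀ f : C(X, ℝ), 0 ≤ f → 0 ≤ P f)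
    (hP1 : P 1 = 1) (k : ℕ) (f : C(X, ℝ)) (x : X) : |(P ^ k) f x| ≤ ‖f‖ := by
  have h1 : (StrongDual.toWeakDual ((ContinuousMap.evalCLM ℝ x : C(X, ℝ) →L[ℝ] ℝ).comp (P ^ k)) :
      WeakDual ℝ C(X, ℝ)) ∈ Pos X := by
    refine ⟨fun f hf => pow_pos' hP k hf x, ?_⟩
    show (P ^ k) (1 : C(X, ℝ)) x = 1
    rw [pow_one' hP1]
    rfl
  exact pos_bound h1 f

theorem ces_inv {P : C(X, ℝ) →L[ℝ] C(X, ℝ)} (hP : ∀ f : C(X, ℝ), 0 ≤ f → 0 ≤ P f)
    (hP1 : P 1 = 1) (n : ℕ) (x : X) (f : C(X, ℝ)) :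
    |ces P n x (P f) - ces P n x f| ≤ (n + 1 : ℝ)⁻¹ * (2 * ‖f‖) := by
  have hn : (0 : ℝ) < n + 1 := by positivity
  have h1 : ces P n x (P f) - ces P n x f =
      (n + 1 : ℝ)⁻¹ * ((P ^ (n + 1)) f x - (P ^ 0) f x) := by
    rw [ces_apply, ces_apply, ← mul_sub, ← Finset.sum_sub_distrib, ← Finset.sum_range_sub
      (fun k => (P ^ k) f x)]
    refine congrArg _ (Finset.sum_congr rfl fun k _ => ?_)
    rw [pow_succ]
    rfl
  rw [h1, abs_mul, abs_of_pos (inv_pos.2 hn)]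
  refine mul_le_mul_of_nonneg_left ?_ (inv_nonneg.2 hn.le)
  have h2 := pow_bound hP hP1 (n + 1) f x
  have h3 := pow_bound hP hP1 0 f x
  calc |(P ^ (n + 1)) f x - (P ^ 0) f x| ≤ |(P ^ (n + 1)) f x| + |(P ^ 0) f x| := abs_sub _ _
    _ ≤ 2 * ‖f‖ := by linarith

/-- If the means do not tend to zero then some invariant functional does not vanish. -/
theorem exists_inv {P : C(X, ℝ) →L[ℝ] C(X, ℝ)} (hP : ∀ f : C(X, ℝ), 0 ≤ f → 0 ≤ P f)
    (hP1 : P 1 = 1) (u v : C(X, ℝ)) {ε : ℝ} (hε : 0 < ε)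
    (h : ∀ n, ∃ x, ε ≤ |ces P n x u| + |ces P n x v|) :
    ∃ Λ ∈ Inv P, Λ u ≠ 0 ∨ Λ v ≠ 0 := by
  choose x hx using h
  obtain ⟨Λ, hΛ, hc⟩ := isCompact_pos.exists_mapClusterPt (f := atTop) (u := fun n => ces P n (x n))
    (tendsto_principal.2 (Eventually.of_forall fun n => ces_pos hP hP1 n (x n)))
  refine ⟨Λ, ⟨hΛ, fun f => ?_⟩, ?_⟩
  · have h1 : Continuous fun Λ : WeakDual ℝ C(X, ℝ) => Λ (P f) - Λ f :=
      (WeakDual.eval_continuous _).sub (WeakDual.eval_continuous _)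
    have h2 := hc.continuousAt_comp h1.continuousAt
    have h3 : Tendsto ((fun Λ : WeakDual ℝ C(X, ℝ) => Λ (P f) - Λ f) ∘ fun n => ces P n (x n))
        atTop (𝓝 0) := by
      rw [tendsto_zero_iff_abs_tendsto_zero]
      have h4 : Tendsto (fun n : ℕ => (n + 1 : ℝ)⁻¹ * (2 * ‖f‖)) atTop (𝓝 0) := by
        have := (tendsto_one_div_add_atTop_nhds_zero_nat (𝕜 := ℝ)).mul_const (2 * ‖f‖)
        rw [zero_mul] at this
        refine this.congr fun n => ?_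
        rw [one_div]
      exact squeeze_zero (fun n => abs_nonneg _) (fun n => ces_inv hP hP1 n (x n) f) h4
    have h4 : Λ (P f) - Λ f = 0 := eq_of_nhds_neBot (h2.clusterPt.neBot.mono (by
      exact inf_le_inf_left _ h3))
    exact sub_eq_zero.1 h4
  · by_contra hcon
    push Not at hcon
    have h1 : IsOpen {Λ : WeakDual ℝ C(X, ℝ) | |Λ u| + |Λ v| < ε} :=
      isOpen_lt ((WeakDual.eval_continuous u).abs.add (WeakDual.eval_continuous v).abs)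
        continuous_const
    have h2 : Λ ∈ {Λ : WeakDual ℝ C(X, ℝ) | |Λ u| + |Λ v| < ε} := by
      show |Λ u| + |Λ v| < ε
      rw [hcon.1, hcon.2, abs_zero, add_zero]
      exact hε
    obtain ⟨n, hn⟩ := (hc.frequently (h1.mem_nhds h2)).exists
    exact absurd (hx n) (not_le.2 hn)

/-- Krein-Milman. -/
theorem exists_extreme (P : C(X, ℝ) → C(X, ℝ)) (u : C(X, ℝ))
    {Λ : WeakDual ℝ C(X, ℝ)} (hΛ : Λ ∈ Inv P) (h : Λ u ≠ 0) :
    ∃ Λ ∈ (Inv P).extremePoints ℝ, Λ u ≠ 0 := by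
  by_contra hcon
  push Not at hcon
  have : LocallyConvexSpace ℝ (WeakDual ℝ C(X, ℝ)) :=
    inferInstanceAs (LocallyConvexSpace ℝ (WeakBilin (topDualPairing ℝ C(X, ℝ))))
  have h1 := closure_convexHull_extremePoints (isCompact_inv P) (convex_inv P)
  have h2 : closure (convexHull ℝ ((Inv P).extremePoints ℝ)) ⊆
      {Λ : WeakDual ℝ C(X, ℝ) | Λ u = 0} := by
    refine closure_minimal (convexHull_min (fun Λ h => hcon Λ h) ?_)
      (isClosed_eq (WeakDual.eval_continuous u) continuous_const)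
    intro Λ h Λ' h' a b _ _ _
    show a • Λ u + b • Λ' u = 0
    rw [show Λ u = 0 from h, show Λ' u = 0 from h', smul_zero, smul_zero, add_zero]
  rw [h1] at h2
  exact h (h2 hΛ)

end Pool.Agent.Lib.MP_119f04_al
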