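import Pool.Agent.Lib.MP_119f04_al.Func

/-!
# Stationary measures and invariant functionals
-/

set_option autoImplicit false
set_option linter.unusedSectionVars false

namespace Pool.Agent.Lib.MP_119f04_al

open Filter Topology Set MeasureTheory
open scoped ENNReal NNReal

/-- `m` is stationary for the uniform probability measure on the finite set `S`. -/
def Stat {G X : Type} [Group G] [MulAction G X] [MeasurableSpace X] (S : Finset G)
    (m : Measure X) : Prop :=
  ∀ A, MeasurableSet A → (S.card : ℝ≥0∞) * m A = ∑ s ∈ S, m ((fun x => s • x) ⁻¹' A)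

/-- `m` is extreme among the stationary probability measures. -/
def Erg {G X : Type} [Group G] [MulAction G X] [MeasurableSpace X] (S : Finset G)
    (m : Measure X) : Prop :=
  ∀ m₁ m₂ : Measure X, IsProbabilityMeasure m₁ → IsProbabilityMeasure m₂ → Stat S m₁ → Stat S m₂ →
    ∀ a b : ℝ≥0, 0 < a → 0 < b → a + b = 1 → m = a • m₁ + b • m₂ → m₁ = m₂

section Riesz

variable {X : Type} [TopologicalSpace X] [CompactSpace X] [MeasurableSpace X] [BorelSpace X]

theorem exists_measure [T2Space X] {Λ : WeakDual ℝ C(X, ℝ)} (hΛ : Λ ∈ Pos X) :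
    ∃ m : Measure X, IsProbabilityMeasure m ∧ ∀ f : C(X, ℝ), ∫ x, f x ∂m = Λ f := by
  let L : CompactlySupportedContinuousMap X ℝ →ₚ[ℝ] ℝ :=
  { toFun := fun g => Λ g.toContinuousMap
    map_add' := fun g g' => map_add Λ g.toContinuousMap g'.toContinuousMap
    map_smul' := fun c g => map_smul Λ c g.toContinuousMap
    monotone' := fun g g' hg => by
      have h1 : 0 ≤ Λ (g'.toContinuousMap - g.toContinuousMap) := hΛ.1 _ fun x => sub_nonneg.2 (hg x)
      rw [map_sub] at h1
      exact sub_nonneg.1 h1 }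
  have h1 : ∀ f : C(X, ℝ), ∫ x, f x ∂(RealRMK.rieszMeasure L) = Λ f := fun f =>
    RealRMK.integral_rieszMeasure L ⟨f, HasCompactSupport.of_compactSpace f⟩
  refine ⟨RealRMK.rieszMeasure L, ?_, h1⟩
  have h2 := h1 1
  rw [hΛ.2] at h2
  have h3 : ∫ _ : X, (1 : ℝ) ∂(RealRMK.rieszMeasure L) = 1 := h2
  rw [integral_const, smul_eq_mul, mul_one] at h3
  exact isProbabilityMeasure_iff_real.2 h3

theorem integrable_cont (m : Measure X) [IsFiniteMeasure m] {F : Type} [NormedAddCommGroup F]
    (f : C(X, F)) : Integrable f m :=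
  f.continuous.integrable_of_hasCompactSupport (HasCompactSupport.of_compactSpace f)

/-- The functional of a probability measure. -/
noncomputable def func (m : Measure X) [IsFiniteMeasure m] : WeakDual ℝ C(X, ℝ) :=
  StrongDual.toWeakDual (LinearMap.mkContinuous
    { toFun := fun f : C(X, ℝ) => ∫ x, f x ∂m
      map_add' := fun f g => integral_add (integrable_cont m f) (integrable_cont m g)
      map_smul' := fun c f => integral_const_mul c _ } (m.real univ) (fun f => by
        have h1 := norm_integral_le_of_norm_le_const (μ := m) (f := f) (C := ‖f‖)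
          (Eventually.of_forall fun x => f.norm_coe_le_norm x)
        rw [mul_comm]
        exact h1))

theorem func_apply (m : Measure X) [IsFiniteMeasure m] (f : C(X, ℝ)) :
    func m f = ∫ x, f x ∂m := rfl

theorem func_pos (m : Measure X) [IsProbabilityMeasure m] : func m ∈ Pos X := by
  refine ⟨fun f hf => integral_nonneg fun x => hf x, ?_⟩
  rw [func_apply]
  show ∫ _ : X, (1 : ℝ) ∂m = 1
  simp

end Riesz

section Act

variable {G : Type} [Group G] {X : Type} [TopologicalSpace X] [CompactSpace X] [MulAction G X]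
  [ContinuousConstSMul G X]

/-- The translation of a function. -/
def tr (s : G) (f : C(X, ℝ)) : C(X, ℝ) := f.comp ⟨fun x => s • x, continuous_const_smul s⟩

/-- The Markov operator of the uniform measure on `S`. -/
noncomputable def mk (S : Finset G) : C(X, ℝ) →L[ℝ] C(X, ℝ) :=
  LinearMap.mkContinuous
    { toFun := fun f => (S.card : ℝ)⁻¹ • ∑ s ∈ S, tr s f
      map_add' := fun f g => by
        rw [← smul_add, ← Finset.sum_add_distrib]
        rfl
      map_smul' := fun c f => by
        have h1 : ∀ s : G, tr s (c • f) = c • tr s f := fun s => rfl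
        simp only [h1, ← Finset.smul_sum, RingHom.id_apply]
        rw [smul_comm] } 1 (fun f => by
        rw [one_mul]
        show ‖(S.card : ℝ)⁻¹ • ∑ s ∈ S, tr s f‖ ≤ ‖f‖
        rw [norm_smul, norm_inv, Real.norm_natCast]
        have h1 : ‖∑ s ∈ S, tr s f‖ ≤ S.card * ‖f‖ := by
          refine (norm_sum_le _ _).trans ?_
          rw [← nsmul_eq_mul, ← Finset.sum_const]
          refine Finset.sum_le_sum fun s _ => ?_
          rw [ContinuousMap.norm_le _ (norm_nonneg f)]
          exact fun x => f.norm_coe_le_norm _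
        rcases Nat.eq_zero_or_pos S.card with h0 | h0
        · rw [h0, Nat.cast_zero, inv_zero, zero_mul]
          exact norm_nonneg f
        · have h2 : (0 : ℝ) < S.card := by exact_mod_cast h0
          rw [inv_mul_le_iff₀ h2]
          exact h1)

theorem mk_apply (S : Finset G) (f : C(X, ℝ)) (x : X) :
    mk S f x = (S.card : ℝ)⁻¹ * ∑ s ∈ S, f (s • x) := by
  show (S.card : ℝ)⁻¹ • (∑ s ∈ S, tr s f) x = _
  rw [ContinuousMap.sum_apply, smul_eq_mul]
  rfl

theorem mk_pos (S : Finset G) (f : C(X, ℝ)) (hf : 0 ≤ f) : 0 ≤ mk S f := fun x => by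
  show (0 : ℝ) ≤ mk S f x
  rw [mk_apply]
  exact mul_nonneg (inv_nonneg.2 (Nat.cast_nonneg _)) (Finset.sum_nonneg fun s _ => hf _)

theorem mk_one (S : Finset G) (hS : S.Nonempty) : mk S (1 : C(X, ℝ)) = 1 := by
  ext x
  rw [mk_apply]
  have h1 : ∀ s ∈ S, (1 : C(X, ℝ)) (s • x) = 1 := fun _ _ => rfl
  rw [Finset.sum_congr rfl h1, Finset.sum_const, nsmul_eq_mul, mul_one]
  have h2 : (0 : ℝ) < S.card := by exact_mod_cast hS.card_pos
  exact inv_mul_cancel₀ h2.ne'

variable [MeasurableSpace X] [BorelSpace X]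

theorem integral_mk (S : Finset G) (hS : S.Nonempty) (m : Measure X) [IsFiniteMeasure m]
    (f : C(X, ℝ)) : (S.card : ℝ) * ∫ x, mk S f x ∂m = ∑ s ∈ S, ∫ x, f (s • x) ∂m := by
  have h2 : (0 : ℝ) < S.card := by exact_mod_cast hS.card_pos
  have h1 : ∫ x, mk S f x ∂m = (S.card : ℝ)⁻¹ * ∑ s ∈ S, ∫ x, f (s • x) ∂m := by
    have h3 : ∫ x, ∑ s ∈ S, f (s • x) ∂m = ∑ s ∈ S, ∫ x, f (s • x) ∂m :=
      integral_finsetSum S fun s _ => integrable_cont m (tr s f)
    rw [← h3, ← integral_const_mul]
    exact integral_congr_ae (Eventually.of_forall fun x => mk_apply S f x)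
  rw [h1, mul_inv_cancel_left₀ h2.ne']

theorem stat_iff_map (S : Finset G) (m : Measure X) :
    Stat S m ↔ (S.card : ℝ≥0∞) • m = ∑ s ∈ S, m.map (fun x => s • x) := by
  have h1 : ∀ s : G, Measurable (fun x : X => s • x) := fun s =>
    (continuous_const_smul s).measurable
  have h2 : ∀ A, MeasurableSet A → (∑ s ∈ S, m.map (fun x => s • x)) A =
      ∑ s ∈ S, m ((fun x => s • x) ⁻¹' A) := fun A hA => by
    rw [Measure.finsetSum_apply]
    exact Finset.sum_congr rfl fun s _ => Measure.map_apply (h1 s) hA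
  constructor
  · intro h
    refine Measure.ext fun A hA => ?_
    rw [h2 A hA, Measure.smul_apply, smul_eq_mul]
    exact h A hA
  · intro h A hA
    rw [← h2 A hA, ← h, Measure.smul_apply, smul_eq_mul]

theorem integral_map_sum (S : Finset G) (m : Measure X) [IsFiniteMeasure m] (f : C(X, ℝ)) :
    ∫ x, f x ∂(∑ s ∈ S, m.map (fun x => s • x)) = ∑ s ∈ S, ∫ x, f (s • x) ∂m := by
  have h1 : ∀ s : G, Measurable (fun x : X => s • x) := fun s =>
    (continuous_const_smul s).measurable
  rw [integral_finsetSum_measure]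
  · refine Finset.sum_congr rfl fun s _ => ?_
    rw [integral_map (h1 s).aemeasurable]
    exact f.continuous.aestronglyMeasurable
  · intro s _
    exact integrable_cont _ f

variable [HasOuterApproxClosed X]

theorem ext_meas {m m' : Measure X} [IsFiniteMeasure m] [IsFiniteMeasure m']
    (h : ∀ f : C(X, ℝ), ∫ x, f x ∂m = ∫ x, f x ∂m') : m = m' :=
  ext_of_forall_integral_eq_of_IsFiniteMeasure fun f => h f.toContinuousMap

theorem stat_iff (S : Finset G) (hS : S.Nonempty) (m : Measure X) [IsFiniteMeasure m] :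
    Stat S m ↔ ∀ f : C(X, ℝ), ∫ x, mk S f x ∂m = ∫ x, f x ∂m := by
  have h2 : (0 : ℝ) < S.card := by exact_mod_cast hS.card_pos
  have h3 : ∀ f : C(X, ℝ), ∫ x, f x ∂((S.card : ℝ≥0∞) • m) = (S.card : ℝ) * ∫ x, f x ∂m := by
    intro f
    rw [integral_smul_measure, ENNReal.toReal_natCast, smul_eq_mul]
  rw [stat_iff_map]
  constructor
  · intro h f
    have h4 := integral_map_sum S m f
    rw [← h, h3, ← integral_mk S hS] at h4
    exact (mul_left_cancel₀ h2.ne' h4).symm
  · intro h
    have h5 : IsFiniteMeasure ((S.card : ℝ≥0∞) • m) :=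
      Measure.smul_finite m (ENNReal.natCast_ne_top _)
    refine ext_meas fun f => ?_
    rw [h3, integral_map_sum, ← integral_mk S hS, h]

/-- The measure of an extreme functional. -/
theorem exists_erg [T2Space X] (S : Finset G) (hS : S.Nonempty) {Λ : WeakDual ℝ C(X, ℝ)}
    (hΛ : Λ ∈ (Inv (mk S : C(X, ℝ) → C(X, ℝ))).extremePoints ℝ) :
    ∃ m : Measure X, IsProbabilityMeasure m ∧ Stat S m ∧ Erg S m ∧
      ∀ f : C(X, ℝ), ∫ x, f x ∂m = Λ f := by
  obtain ⟨hΛ1, hΛ2⟩ := mem_extremePoints.1 hΛ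
  obtain ⟨m, hm, hint⟩ := exists_measure hΛ1.1
  refine ⟨m, hm, (stat_iff S hS m).2 fun f => ?_, ?_, hint⟩
  · rw [hint, hint]
    exact hΛ1.2 f
  · intro m₁ m₂ h₁ h₂ hs₁ hs₂ a b ha hb hab hm12
    have k₁ : func m₁ ∈ Inv (mk S : C(X, ℝ) → C(X, ℝ)) := ⟨func_pos m₁, (stat_iff S hS m₁).1 hs₁⟩
    have k₂ : func m₂ ∈ Inv (mk S : C(X, ℝ) → C(X, ℝ)) := ⟨func_pos m₂, (stat_iff S hS m₂).1 hs₂⟩
    have h3 : Λ = (a : ℝ) • func m₁ + (b : ℝ) • func m₂ := by
      refine DFunLike.ext _ _ fun f => ?_
      show Λ f = (a : ℝ) • func m₁ f + (b : ℝ) • func m₂ f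
      rw [← hint, hm12, integral_add_measure (integrable_cont _ f) (integrable_cont _ f)]
      rw [func_apply, func_apply]
      congr 1
      · exact integral_smul_nnreal_measure _ _
      · exact integral_smul_nnreal_measure _ _
    obtain ⟨h4, h5⟩ := hΛ2 _ k₁ _ k₂ ⟨a, b, by exact_mod_cast ha, by exact_mod_cast hb,
      by exact_mod_cast hab, h3.symm⟩
    refine ext_meas fun f => ?_
    rw [← func_apply m₁, ← func_apply m₂, h4, h5]

end Act

/-- A stationary measure with an atom gives a finite orbit. -/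
theorem finite_orbit {G X : Type} [Group G] [MulAction G X] [MeasurableSpace X]
    [MeasurableSingletonClass X] (S : Finset G) (m : Measure X) [IsFiniteMeasure m]
    (hst : Stat S m) {x₀ : X} (hx₀ : m {x₀} ≠ 0) :
    ∃ x : X, (MulAction.orbit (Subgroup.closure (S : Set G)) x).Finite := by
  have h1 : {x : X | m {x₀} ≤ m {x}}.Finite :=
    Measure.finite_const_le_meas_of_disjoint_iUnion m (pos_iff_ne_zero.2 hx₀)
      (fun x => measurableSet_singleton x) (fun x y hxy => by
        rw [Function.onFun, Set.disjoint_singleton]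
        exact hxy) (measure_ne_top _ _)
  obtain ⟨x₁, hx₁, hmax⟩ := h1.exists_maximalFor (fun x => m {x}) _ ⟨x₀, le_refl (m {x₀})⟩
  have hmax' : ∀ y, m {y} ≤ m {x₁} := by
    intro y
    by_contra hcon
    rw [not_le] at hcon
    exact absurd (hmax (le_trans hx₁ hcon.le) hcon.le) (not_le.2 hcon)
  have hF : {x : X | m {x} = m {x₁}}.Finite := h1.subset fun x hx => by
    show m {x₀} ≤ m {x}
    rw [show m {x} = m {x₁} from hx]
    exact hx₁
  have hinv : ∀ s ∈ S, ∀ x ∈ {x : X | m {x} = m {x₁}}, s⁻¹ • x ∈ {x : X | m {x} = m {x₁}} := by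
    intro s hs x hx
    have h2 := hst {x} (measurableSet_singleton x)
    have h3 : ∀ s : G, (fun y : X => s • y) ⁻¹' {x} = {s⁻¹ • x} := by
      intro s
      ext y
      simp only [mem_preimage, mem_singleton_iff]
      rw [eq_inv_smul_iff]
    simp only [h3] at h2
    rw [show m {x} = m {x₁} from hx] at h2
    by_contra hcon
    have h4 : m {s⁻¹ • x} < m {x₁} := lt_of_le_of_ne (hmax' _) hcon
    have h5 : ∑ s ∈ S, m.real {s⁻¹ • x} < ∑ _s ∈ S, m.real {x₁} :=
      Finset.sum_lt_sum (fun t _ => ENNReal.toReal_mono (measure_ne_top _ _) (hmax' _))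
        ⟨s, hs, (ENNReal.toReal_lt_toReal (measure_ne_top _ _) (measure_ne_top _ _)).2 h4⟩
    have h6 := congrArg ENNReal.toReal h2
    rw [ENNReal.toReal_mul, ENNReal.toReal_natCast,
      ENNReal.toReal_sum fun t _ => measure_ne_top _ _] at h6
    rw [Finset.sum_const, nsmul_eq_mul] at h5
    exact absurd h5 (not_lt.2 h6.le)
  refine ⟨x₁, hF.subset ?_⟩
  rintro _ ⟨g, rfl⟩
  show (g : G) • x₁ ∈ {x : X | m {x} = m {x₁}}
  have hall : ∀ g ∈ Subgroup.closure (S : Set G), ∀ x ∈ {x : X | m {x} = m {x₁}},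
      g • x ∈ {x : X | m {x} = m {x₁}} ∧ g⁻¹ • x ∈ {x : X | m {x} = m {x₁}} := by
    intro g hg
    induction hg using Subgroup.closure_induction with
    | mem s hs =>
      intro x hx
      refine ⟨?_, hinv s hs x hx⟩
      have h2 : Set.BijOn (fun x => s⁻¹ • x) {x : X | m {x} = m {x₁}} {x : X | m {x} = m {x₁}} :=
        (hF.injOn_iff_bijOn_of_mapsTo (hinv s hs)).1 (MulAction.injective s⁻¹).injOn
      obtain ⟨y, hy, hyx⟩ := h2.surjOn hx
      have h3 : s • x = y := by rw [← hyx]; exact smul_inv_smul s y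
      rw [h3]
      exact hy
    | one =>
      intro x hx
      rw [inv_one, one_smul]
      exact ⟨hx, hx⟩
    | mul a b _ _ ha hb =>
      intro x hx
      refine ⟨?_, ?_⟩
      · rw [mul_smul]
        exact (ha _ (hb x hx).1).1
      · rw [mul_inv_rev, mul_smul]
        exact (hb _ (ha x hx).2).2
    | inv a _ ha =>
      intro x hx
      rw [inv_inv]
      exact ⟨(ha x hx).2, (ha x hx).1⟩
  exact (hall g g.2 x₁ rfl).1

end Pool.Agent.Lib.MP_119f04_al
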