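import Pool.Agent.Lib.MP_119f04_al.Meas
import Pool.Agent.Lib.MP_119f04_al.Comm

/-!
# Automorphic norms and stationary measures
-/

set_option autoImplicit false
set_option linter.unusedSectionVars false

namespace Pool.Agent.Lib.MP_119f04_al

open Filter Topology Set MeasureTheory
open scoped ENNReal NNReal

section Average

variable {G : Type} [Group G] {E : Type} [AddCommGroup E] [Module ℂ E] (ρ : G →* (E →ₗ[ℂ] E))

/-- The averaging operator. -/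
noncomputable def Q (S : Finset G) : E →ₗ[ℂ] E := (S.card : ℂ)⁻¹ • ∑ s ∈ S, ρ s⁻¹

theorem Q_apply (S : Finset G) (v : E) : Q ρ S v = (S.card : ℂ)⁻¹ • ∑ s ∈ S, ρ s⁻¹ v := by
  rw [Q, LinearMap.smul_apply, LinearMap.sum_apply]

/-- The means. -/
noncomputable def av (S : Finset G) (n : ℕ) (v : E) : E :=
  ((n + 1 : ℂ)⁻¹) • ∑ k ∈ Finset.range (n + 1), (Q ρ S ^ k) v

theorem av_smul (S : Finset G) (n : ℕ) (c : ℂ) (v : E) : av ρ S n (c • v) = c • av ρ S n v := by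
  rw [av, av, smul_comm c, Finset.smul_sum (r := c)]
  refine congrArg _ (Finset.sum_congr rfl fun k _ => ?_)
  rw [map_smul]

end Average

section Coef

variable {G : Type} [Group G] [TopologicalSpace G] [IsTopologicalGroup G]
  {E : Type} [AddCommGroup E] [Module ℂ E] [TopologicalSpace E]
  (ρ : G →* (E →ₗ[ℂ] E)) {Γ : Subgroup G} (η : E →L[ℂ] ℂ)

/-- The matrix coefficient as a function on `G / Γ`. -/
noncomputable def cf (hη : ∀ γ ∈ Γ, ∀ v, η (ρ γ v) = η v) (v : E) (x : G ⧸ Γ) : ℂ :=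
  Quotient.liftOn' x (fun g => η (ρ g⁻¹ v)) (fun a b hab => by
    have h1 : a⁻¹ * b ∈ Γ := QuotientGroup.leftRel_apply.1 hab
    show η (ρ a⁻¹ v) = η (ρ b⁻¹ v)
    have h2 : ρ b⁻¹ v = ρ (a⁻¹ * b)⁻¹ (ρ a⁻¹ v) := by
      rw [← Module.End.mul_apply, ← map_mul]
      congr 2
      group
    rw [h2, hη _ (Γ.inv_mem h1)])

variable (hη : ∀ γ ∈ Γ, ∀ v, η (ρ γ v) = η v)

theorem cf_mk (v : E) (g : G) : cf ρ η hη v (QuotientGroup.mk g) = η (ρ g⁻¹ v) := rfl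

theorem cf_smul (v : E) (s : G) (x : G ⧸ Γ) : cf ρ η hη v (s • x) = cf ρ η hη (ρ s⁻¹ v) x := by
  obtain ⟨g, rfl⟩ := QuotientGroup.mk_surjective x
  have h1 : s • (QuotientGroup.mk g : G ⧸ Γ) = QuotientGroup.mk (s * g) := rfl
  rw [h1, cf_mk, cf_mk, mul_inv_rev, map_mul, Module.End.mul_apply]

theorem cf_add (v w : E) (x : G ⧸ Γ) : cf ρ η hη (v + w) x = cf ρ η hη v x + cf ρ η hη w x := by
  obtain ⟨g, rfl⟩ := QuotientGroup.mk_surjective x
  rw [cf_mk, cf_mk, cf_mk, map_add, map_add]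

theorem cf_csmul (c : ℂ) (v : E) (x : G ⧸ Γ) : cf ρ η hη (c • v) x = c * cf ρ η hη v x := by
  obtain ⟨g, rfl⟩ := QuotientGroup.mk_surjective x
  rw [cf_mk, cf_mk, map_smul, map_smul, smul_eq_mul]

theorem cf_sum {ι : Type} (t : Finset ι) (v : ι → E) (x : G ⧸ Γ) :
    cf ρ η hη (∑ i ∈ t, v i) x = ∑ i ∈ t, cf ρ η hη (v i) x := by
  obtain ⟨g, rfl⟩ := QuotientGroup.mk_surjective x
  rw [cf_mk, map_sum, map_sum]
  rfl

variable (hρ : Continuous fun x : G × E => ρ x.1 x.2)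

include hρ in
theorem cf_cont : Continuous fun p : E × (G ⧸ Γ) => cf ρ η hη p.1 p.2 := by
  rw [← (IsOpenQuotientMap.id.prodMap
    (QuotientGroup.isOpenQuotientMap_mk (N := Γ))).continuous_comp_iff]
  have h1 : Continuous fun p : E × G => ((p.2)⁻¹, p.1) := by fun_prop
  exact η.continuous.comp (hρ.comp h1)

/-- The matrix coefficients as continuous functions. -/
noncomputable def F : C(E, C(G ⧸ Γ, ℂ)) := ContinuousMap.curry ⟨_, cf_cont ρ η hη hρ⟩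

theorem F_apply (v : E) (x : G ⧸ Γ) : F ρ η hη hρ v x = cf ρ η hη v x := rfl

/-- The real parts of the matrix coefficients. -/
noncomputable def re (v : E) : C(G ⧸ Γ, ℝ) := ⟨fun x => (F ρ η hη hρ v x).re, by fun_prop⟩

theorem re_apply (v : E) (x : G ⧸ Γ) : re ρ η hη hρ v x = (cf ρ η hη v x).re := rfl

theorem re_I (v : E) (x : G ⧸ Γ) :
    re ρ η hη hρ (Complex.I • v) x = -(cf ρ η hη v x).im := by
  rw [re_apply, cf_csmul, Complex.I_mul_re]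

variable [CompactSpace (G ⧸ Γ)]

theorem mk_re (S : Finset G) (v : E) :
    mk S (re ρ η hη hρ v) = re ρ η hη hρ (Q ρ S v) := by
  ext x
  rw [mk_apply, re_apply, Q_apply, cf_csmul, cf_sum]
  have h1 : ((S.card : ℂ)⁻¹ : ℂ) = (((S.card : ℝ)⁻¹ : ℝ) : ℂ) := by push_cast; rfl
  rw [h1, Complex.re_ofReal_mul, Complex.re_sum]
  refine congrArg _ (Finset.sum_congr rfl fun s _ => ?_)
  rw [re_apply, cf_smul]

theorem mk_pow_re (S : Finset G) (k : ℕ) (v : E) :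
    (mk S ^ k) (re ρ η hη hρ v) = re ρ η hη hρ ((Q ρ S ^ k) v) := by
  induction k generalizing v with
  | zero => rfl
  | succ k ih =>
    rw [pow_succ, pow_succ, Module.End.mul_apply]
    show (mk S ^ k) (mk S (re ρ η hη hρ v)) = _
    rw [mk_re, ih]

theorem ces_re (S : Finset G) (n : ℕ) (v : E) (x : G ⧸ Γ) :
    ces (mk S) n x (re ρ η hη hρ v) = re ρ η hη hρ (av ρ S n v) x := by
  rw [ces_apply, re_apply, av, cf_csmul, cf_sum]
  have h1 : ((n + 1 : ℂ)⁻¹ : ℂ) = (((n + 1 : ℝ)⁻¹ : ℝ) : ℂ) := by push_cast; rfl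
  rw [h1, Complex.re_ofReal_mul, Complex.re_sum]
  refine congrArg _ (Finset.sum_congr rfl fun k _ => ?_)
  rw [mk_pow_re, re_apply]

end Coef

section Mean

variable {G : Type} [Group G] {E : Type} [AddCommGroup E] [Module ℂ E] [TopologicalSpace E]
  (ρ : G →* (E →ₗ[ℂ] E)) (η : E →L[ℂ] ℂ)

theorem eta_Q (S : Finset G) (hS : S.Nonempty) (h : ∀ s ∈ S, ∀ v, η (ρ s⁻¹ v) = η v) (v : E) :
    η (Q ρ S v) = η v := by
  rw [Q_apply, map_smul, map_sum, Finset.sum_congr rfl fun s hs => h s hs v, Finset.sum_const,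
    nsmul_eq_mul, smul_eq_mul]
  have h2 : (S.card : ℂ) ≠ 0 := Nat.cast_ne_zero.2 hS.card_pos.ne'
  exact inv_mul_cancel_left₀ h2 _

theorem eta_av (S : Finset G) (hS : S.Nonempty) (h : ∀ s ∈ S, ∀ v, η (ρ s⁻¹ v) = η v) (n : ℕ)
    (v : E) : η (av ρ S n v) = η v := by
  have h1 : ∀ k, η ((Q ρ S ^ k) v) = η v := by
    intro k
    induction k with
    | zero => rfl
    | succ k ih =>
      rw [pow_succ', Module.End.mul_apply, eta_Q ρ η S hS h, ih]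
  rw [av, map_smul, map_sum, Finset.sum_congr rfl fun k _ => h1 k, Finset.sum_const,
    Finset.card_range, nsmul_eq_mul, smul_eq_mul]
  have h2 : ((n + 1 : ℕ) : ℂ) ≠ 0 := Nat.cast_ne_zero.2 (Nat.succ_ne_zero n)
  push_cast at h2 ⊢
  exact inv_mul_cancel_left₀ h2 _

end Mean

section Main

variable {G : Type} [Group G] [TopologicalSpace G] [IsTopologicalGroup G]
  {E : Type} [AddCommGroup E] [Module ℂ E] [TopologicalSpace E] (ρ : G →* (E →ₗ[ℂ] E))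

/-- The automorphic norm. -/
noncomputable def nrm (η : E →L[ℂ] ℂ) (v : E) : ℝ := ⨆ g : G, ‖η (ρ g v)‖

variable (hρ : Continuous fun x : G × E => ρ x.1 x.2)

include hρ in
theorem le_nrm {Γ : Subgroup G} [CompactSpace (G ⧸ Γ)] {η : E →L[ℂ] ℂ}
    (hη : ∀ γ ∈ Γ, ∀ v, η (ρ γ v) = η v) (v : E) : ‖η v‖ ≤ nrm ρ η v := by
  have h1 : ∀ g, ‖η (ρ g v)‖ ≤ ‖F ρ η hη hρ v‖ := by
    intro g
    have h2 := (F ρ η hη hρ v).norm_coe_le_norm (QuotientGroup.mk g⁻¹)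
    rw [F_apply, cf_mk, inv_inv] at h2
    exact h2
  have h3 : BddAbove (range fun g : G => ‖η (ρ g v)‖) := ⟨_, by rintro _ ⟨g, rfl⟩; exact h1 g⟩
  have h4 := le_ciSup h3 1
  rw [map_one] at h4
  exact h4

theorem nrm_le {Γ : Subgroup G} [CompactSpace (G ⧸ Γ)] {η : E →L[ℂ] ℂ}
    (hη : ∀ γ ∈ Γ, ∀ v, η (ρ γ v) = η v) (v : E) : nrm ρ η v ≤ ‖F ρ η hη hρ v‖ := by
  refine ciSup_le fun g => ?_
  have h2 := (F ρ η hη hρ v).norm_coe_le_norm (QuotientGroup.mk g⁻¹)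
  rw [F_apply, cf_mk, inv_inv] at h2
  exact h2

theorem nrm_nonneg (η : E →L[ℂ] ℂ) (v : E) : 0 ≤ nrm ρ η v :=
  Real.iSup_nonneg fun _ => norm_nonneg _

include hρ in
theorem main [LocallyCompactSpace G] [T2Space G] [SecondCountableTopology G] (Γ₁ Γ₂ : Subgroup G)
    [CompactSpace (G ⧸ Γ₁)] [CompactSpace (G ⧸ Γ₂)] [DiscreteTopology Γ₂]
    [MeasurableSpace (G ⧸ Γ₂)] [BorelSpace (G ⧸ Γ₂)]
    (hirr : ∀ W : Submodule ℂ E, IsClosed (W : Set E) → (∀ g, ∀ w ∈ W, ρ g w ∈ W) →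
      W = ⊥ ∨ W = ⊤)
    (V : Submodule ℂ E) (hV : Dense (V : Set E)) (η₁ η₂ : E →L[ℂ] ℂ) (hη₁ : η₁ ≠ 0)
    (hinv₁ : ∀ γ ∈ Γ₁, ∀ v, η₁ (ρ γ v) = η₁ v) (hinv₂ : ∀ γ ∈ Γ₂, ∀ v, η₂ (ρ γ v) = η₂ v)
    (C : ℝ) (hC : ∀ v ∈ V, nrm ρ η₁ v ≤ C * nrm ρ η₂ v)
    (S : Finset G) (hS : S.Nonempty) (hSΓ : Subgroup.closure (S : Set G) = Γ₁) :
    (∃ h : G, Subgroup.Commensurable Γ₁ (Γ₂.map (MulAut.conj h).toMonoidHom)) ∨
    ∃ m : Measure (G ⧸ Γ₂), IsProbabilityMeasure m ∧ Stat S m ∧ Erg S m ∧ (∀ x, m {x} = 0) ∧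
      ∀ N : Subgroup G, N.Normal → (∃ g ∈ N, ∃ v, ρ g v ≠ v) →
        ∃ g ∈ N, ∃ A, MeasurableSet A ∧ m ((fun x => g • x) ⁻¹' A) ≠ m A := by
  have hcl : IsClosed (Γ₂ : Set G) := Subgroup.isClosed_of_discrete
  have ht2 : T2Space (G ⧸ Γ₂) := t2_quot Γ₂ hcl
  obtain ⟨v₀, hv₀⟩ : ∃ v₀, η₁ v₀ ≠ 0 := by
    by_contra hcon
    push Not at hcon
    exact hη₁ (ContinuousLinearMap.ext hcon)
  have hρg : ∀ g, Continuous (ρ g) := fun g => hρ.comp (continuous_const.prodMk continuous_id)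
  -- the inequality on `E`
  have hE : ∀ v, ‖η₁ v‖ ≤ |C| * ‖F ρ η₂ hinv₂ hρ v‖ := by
    have h1 : IsClosed {v : E | ‖η₁ v‖ ≤ |C| * ‖F ρ η₂ hinv₂ hρ v‖} :=
      isClosed_le η₁.continuous.norm (continuous_const.mul (F ρ η₂ hinv₂ hρ).continuous.norm)
    have h2 : (V : Set E) ⊆ {v : E | ‖η₁ v‖ ≤ |C| * ‖F ρ η₂ hinv₂ hρ v‖} := by
      intro v hv
      calc ‖η₁ v‖ ≤ nrm ρ η₁ v := le_nrm ρ hρ hinv₁ v
        _ ≤ C * nrm ρ η₂ v := hC v hv
        _ ≤ |C| * nrm ρ η₂ v := mul_le_mul_of_nonneg_right (le_abs_self C) (nrm_nonneg ρ η₂ v)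
        _ ≤ |C| * ‖F ρ η₂ hinv₂ hρ v‖ :=
            mul_le_mul_of_nonneg_left (nrm_le ρ hρ hinv₂ v) (abs_nonneg C)
    intro v
    exact closure_minimal h2 h1 (hV v)
  obtain ⟨ε, hε⟩ : ∃ ε : ℝ, ε = ‖η₁ v₀‖ / (|C| + 1) := ⟨_, rfl⟩
  have hC1 : 0 < |C| + 1 := by positivity
  have hn0 : 0 < ‖η₁ v₀‖ := norm_pos_iff.2 hv₀
  have hε0 : 0 < ε := by rw [hε]; positivity
  have hεC : ε * (|C| + 1) = ‖η₁ v₀‖ := by rw [hε]; field_simp
  have hbig : ∀ n, ∃ x : G ⧸ Γ₂, ε ≤ |ces (mk S) n x (re ρ η₂ hinv₂ hρ v₀)| +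
      |ces (mk S) n x (re ρ η₂ hinv₂ hρ (Complex.I • v₀))| := by
    intro n
    by_contra hcon
    push Not at hcon
    have h1 : ‖F ρ η₂ hinv₂ hρ (av ρ S n v₀)‖ ≤ ε := by
      rw [ContinuousMap.norm_le _ hε0.le]
      intro x
      have h2 := hcon x
      rw [ces_re, ces_re, av_smul, re_I, re_apply, abs_neg] at h2
      exact (Complex.norm_le_abs_re_add_abs_im _).trans h2.le
    have h2 := hE (av ρ S n v₀)
    rw [eta_av ρ η₁ S hS (fun s hs v => hinv₁ _ (Γ₁.inv_mem (by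
      rw [← hSΓ]; exact Subgroup.subset_closure hs)) v)] at h2
    have h3 := h2.trans (mul_le_mul_of_nonneg_left h1 (abs_nonneg C))
    nlinarith
  obtain ⟨Λ, hΛ, hne⟩ := exists_inv (mk_pos S) (mk_one S hS) _ _ hε0 hbig
  obtain ⟨v₁, hv₁⟩ : ∃ v₁, Λ (re ρ η₂ hinv₂ hρ v₁) ≠ 0 := by
    rcases hne with h | h
    · exact ⟨_, h⟩
    · exact ⟨_, h⟩
  obtain ⟨Λ', hΛ', hv₁'⟩ := exists_extreme _ _ hΛ hv₁
  obtain ⟨m, hm, hst, herg, hint⟩ := exists_erg S hS hΛ'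
  by_cases hat : ∃ x, m {x} ≠ 0
  · left
    obtain ⟨x₀, hx₀⟩ := hat
    obtain ⟨x, hx⟩ := finite_orbit S m hst hx₀
    obtain ⟨h, rfl⟩ := QuotientGroup.mk_surjective x
    rw [hSΓ] at hx
    exact ⟨h, commens Γ₁ Γ₂ h hx⟩
  right
  push Not at hat
  refine ⟨m, hm, hst, herg, hat, fun N hN hact => ?_⟩
  by_contra hcon
  push Not at hcon
  -- the invariant functional
  have hinvm : ∀ g ∈ N, ∀ f : C(G ⧸ Γ₂, ℂ), ∫ x, f (g • x) ∂m = ∫ x, f x ∂m := by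
    intro g hg f
    have h1 : m.map (fun x => g • x) = m := by
      refine Measure.ext fun A hA => ?_
      rw [Measure.map_apply (continuous_const_smul g).measurable hA]
      exact hcon g hg A hA
    conv_rhs => rw [← h1]
    rw [integral_map (continuous_const_smul g).measurable.aemeasurable]
    exact f.continuous.aestronglyMeasurable
  let ℓ : E → ℂ := fun v => ∫ x, F ρ η₂ hinv₂ hρ v x ∂m
  have hadd : ∀ v w, ℓ (v + w) = ℓ v + ℓ w := by
    intro v w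
    show ∫ x, F ρ η₂ hinv₂ hρ (v + w) x ∂m = _
    rw [← integral_add (integrable_cont m _) (integrable_cont m _)]
    exact integral_congr_ae (Eventually.of_forall fun x => cf_add ρ η₂ hinv₂ v w x)
  have hsmul : ∀ (c : ℂ) v, ℓ (c • v) = c * ℓ v := by
    intro c v
    show ∫ x, F ρ η₂ hinv₂ hρ (c • v) x ∂m = _
    rw [← integral_const_mul]
    exact integral_congr_ae (Eventually.of_forall fun x => cf_csmul ρ η₂ hinv₂ c v x)
  have hcont : Continuous ℓ := by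
    have h1 : Continuous fun f : C(G ⧸ Γ₂, ℂ) => ∫ x, f x ∂m := by
      refine (LipschitzWith.of_dist_le_mul (K := 1) fun f f' => ?_).continuous
      rw [NNReal.coe_one, one_mul, dist_eq_norm, dist_eq_norm,
        ← integral_sub (integrable_cont m f) (integrable_cont m f')]
      have h2 := norm_integral_le_of_norm_le_const (μ := m) (f := fun x => f x - f' x)
        (C := ‖f - f'‖) (Eventually.of_forall fun x => (f - f').norm_coe_le_norm x)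
      have h3 : m.real univ = 1 := by simp
      rwa [h3, mul_one] at h2
    exact h1.comp (F ρ η₂ hinv₂ hρ).continuous
  have hNinv : ∀ g ∈ N, ∀ v, ℓ (ρ g v) = ℓ v := by
    intro g hg v
    have h1 := hinvm g⁻¹ (N.inv_mem hg) (F ρ η₂ hinv₂ hρ v)
    show ∫ x, F ρ η₂ hinv₂ hρ (ρ g v) x ∂m = ∫ x, F ρ η₂ hinv₂ hρ v x ∂m
    rw [← h1]
    refine integral_congr_ae (Eventually.of_forall fun x => ?_)
    show cf ρ η₂ hinv₂ (ρ g v) x = cf ρ η₂ hinv₂ v (g⁻¹ • x)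
    rw [cf_smul, inv_inv]
  have hℓ1 : ℓ v₁ ≠ 0 := by
    intro h0
    apply hv₁'
    rw [← hint]
    have h1 : (∫ x, F ρ η₂ hinv₂ hρ v₁ x ∂m).re = ∫ x, (F ρ η₂ hinv₂ hρ v₁ x).re ∂m :=
      (integral_re (𝕜 := ℂ) (f := fun x => F ρ η₂ hinv₂ hρ v₁ x)
        (integrable_cont m (F ρ η₂ hinv₂ hρ v₁))).symm
    have h2 : ∫ x, re ρ η₂ hinv₂ hρ v₁ x ∂m = (ℓ v₁).re := h1.symm
    rw [h2, h0, Complex.zero_re]
  let W : Submodule ℂ E :=
  { carrier := {v | ∀ g, ℓ (ρ g v) = 0}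
    add_mem' := fun {v w} hv hw g => by rw [map_add, hadd, hv g, hw g, add_zero]
    zero_mem' := fun g => by
      have h1 := hsmul 0 (0 : E)
      rw [smul_zero, zero_mul] at h1
      rw [map_zero, h1]
    smul_mem' := fun c v hv g => by rw [map_smul, hsmul, hv g, mul_zero] }
  have hWc : IsClosed (W : Set E) := by
    have h1 : (W : Set E) = ⋂ g, {v | ℓ (ρ g v) = 0} := by
      ext v
      rw [mem_iInter]
      exact Iff.rfl
    rw [h1]
    exact isClosed_iInter fun g => isClosed_eq (hcont.comp (hρg g)) continuous_const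
  have hWi : ∀ g, ∀ w ∈ W, ρ g w ∈ W := by
    intro g w hw g'
    rw [← Module.End.mul_apply, ← map_mul]
    exact hw (g' * g)
  rcases hirr W hWc hWi with h | h
  · obtain ⟨n, hn, v, hv⟩ := hact
    apply hv
    have h1 : ρ n v - v ∈ W := by
      intro g
      have h2 : ρ g (ρ n v) = ρ (g * n * g⁻¹) (ρ g v) := by
        rw [← Module.End.mul_apply, ← Module.End.mul_apply, ← map_mul, ← map_mul]
        congr 2
        group
      have h3 : ℓ (ρ g (ρ n v - v)) = ℓ (ρ g (ρ n v)) + (-1) * ℓ (ρ g v) := by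
        rw [← hsmul, ← hadd, map_sub, neg_smul, one_smul, sub_eq_add_neg]
      rw [h3, h2, hNinv _ (hN.conj_mem n hn g)]
      ring
    rw [h, Submodule.mem_bot] at h1
    exact sub_eq_zero.1 h1
  · apply hℓ1
    have h1 : v₁ ∈ W := by rw [h]; exact Submodule.mem_top
    have h2 := h1 1
    rwa [map_one] at h2

end Main

end Pool.Agent.Lib.MP_119f04_al
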